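import Pool.Agent.R253.HQ.Main

/-!
# MP_4abaeb_an: `I + T` hypercyclic but `e^T` not hypercyclic, `T` quasinilpotent
-/

open Filter Topology

namespace Pool.Agent.Results.MP_4abaeb_an.ExpNotHypercyclic

/-- `S` is hypercyclic: some orbit `{S ^ n x : n ≥ 0}` is dense. -/
def Hypercyclic {𝕜 X : Type*} [NontriviallyNormedField 𝕜] [NormedAddCommGroup X] [NormedSpace 𝕜 X]
    (S : X →L[𝕜] X) : Prop :=
  ∃ x : X, Dense (Set.range fun n : ℕ => (S ^ n) x)

/-- `T` is quasinilpotent: `‖T ^ n‖ ^ (1 / n) → 0`. -/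
def Quasinilpotent {𝕜 X : Type*} [NontriviallyNormedField 𝕜] [NormedAddCommGroup X]
    [NormedSpace 𝕜 X] (T : X →L[𝕜] X) : Prop :=
  Tendsto (fun n : ℕ => ‖T ^ n‖ ^ (1 / (n : ℝ))) atTop (𝓝 0)

/-- For both scalar fields there are a Banach space and a quasinilpotent operator `T` on it with
`I + T` hypercyclic and `e^T` not hypercyclic. -/
theorem result :
    (∃ (X : Type) (_ : NormedAddCommGroup X) (_ : NormedSpace ℂ X) (_ : CompleteSpace X)
      (T : X →L[ℂ] X),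
      Quasinilpotent T ∧ Hypercyclic (1 + T) ∧ ¬ Hypercyclic (NormedSpace.exp T)) ∧
    (∃ (X : Type) (_ : NormedAddCommGroup X) (_ : NormedSpace ℝ X) (_ : CompleteSpace X)
      (T : X →L[ℝ] X),
      Quasinilpotent T ∧ Hypercyclic (1 + T) ∧ ¬ Hypercyclic (NormedSpace.exp T)) :=
  ⟨R253.HQ.main_complex, R253.HQ.main_real⟩

end Pool.Agent.Results.MP_4abaeb_an.ExpNotHypercyclic
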